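import Mathlib
import Pool.Agent.Q13.LagrangeInt

/-!
# Polynomial density of `A` in `A'` does not force `Ω_A = Ω_{A'}`

`D = ℚ[t]`, `A = D + t i D` inside `ℚ(t)(i)`, that is `A = D[Y]/(Y² + t²)`.  Since `ℚ ⊆ D`,
Lagrange interpolation gives `Int_K(A, A') = D[X] = Int_K(A')`, but `i` is a root of the minimal
polynomial of an integral element and of no element of `A`.
-/

open Polynomial TensorProduct

namespace Pool.Agent.Results.MP_efce82_al.DenseNotSameRoots

universe u v

section defs

variable (D : Type u) [CommRing D] [IsDomain D] (A : Type v) [Ring A] [Algebra D A]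

/-- The copy of `A` inside the `K`-algebra `B = K ⊗_D A`, where `K` is the field of fractions
of `D`. -/
def imageA : Set (FractionRing D ⊗[D] A) :=
  Set.range (fun a : A => (1 : FractionRing D) ⊗ₜ[D] a)

/-- `A'`: the set of the elements of `B = K ⊗_D A` that are integral over `D`. -/
def integralElements : Set (FractionRing D ⊗[D] A) := {b | IsIntegral D b}

/-- For subsets `S`, `T` of `B`: the set of the `f ∈ K[X]` with `f(S) ⊆ T`. -/
noncomputable def IntK (S T : Set (FractionRing D ⊗[D] A)) : Set (FractionRing D)[X] :=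
  {f | ∀ b ∈ S, aeval b f ∈ T}

/-- `Ω_S`: the set of the roots, in an algebraic closure of `K`, of the minimal polynomials over
`K` of the elements of the subset `S` of `B`. -/
noncomputable def Omega (S : Set (FractionRing D ⊗[D] A)) :
    Set (AlgebraicClosure (FractionRing D)) :=
  {z | ∃ b ∈ S, aeval z (minpoly (FractionRing D) b) = 0}

end defs

/-- The base ring `ℚ[t]`. -/
abbrev D : Type := ℚ[X]

/-- The quotient field `ℚ(t)`. -/
abbrev K : Type := FractionRing D

/-- The algebra `D[Y]/(Y² + t²)`. -/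
abbrev A : Type := QuadraticAlgebra D (-X ^ 2) 0

/-- Extension of a linear form on `A` to `K ⊗ A`. -/
noncomputable def ext (g : A →ₗ[D] D) : K ⊗[D] A →ₗ[D] K :=
  (TensorProduct.rid D K).toLinearMap ∘ₗ LinearMap.lTensor K g

theorem ext_tmul (g : A →ₗ[D] D) (k : K) (a : A) : ext g (k ⊗ₜ a) = g a • k := by
  simp [ext]

/-- The linear form real part. -/
noncomputable def re : A →ₗ[D] D := QuadraticAlgebra.reₗ _ _

theorem algebraMap_inj : Function.Injective (algebraMap K (K ⊗[D] A)) := by
  have : Nontrivial (K ⊗[D] A) := by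
    refine ⟨⟨1, 0, fun h => ?_⟩⟩
    have h2 := congrArg (ext re) h
    rw [Algebra.TensorProduct.one_def, ext_tmul, map_zero] at h2
    have h3 : re (1 : A) = 1 := rfl
    rw [h3, one_smul] at h2
    exact one_ne_zero h2
  exact (algebraMap K (K ⊗[D] A)).injective

theorem map_of_mem {f : K[X]} (hf : f ∈ IntK D A (imageA D A) (integralElements D A)) :
    ∃ g : D[X], g.map (algebraMap D K) = f := by
  apply Q13.LagrangeInt.exists_map_eq (k := ℚ)
  intro n
  have hx := hf _ ⟨(n : D) • (1 : A), rfl⟩
  have h1 : (1 : K) ⊗ₜ[D] ((n : D) • (1 : A)) = algebraMap K (K ⊗[D] A) (n : K) := by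
    rw [TensorProduct.tmul_smul, Algebra.TensorProduct.algebraMap_apply, TensorProduct.smul_tmul']
    simp [Algebra.smul_def]
  simp only [h1] at hx
  rw [aeval_algebraMap_apply] at hx
  have h2 : IsIntegral D (aeval (n : K) f) := by
    have : IsIntegral D (algebraMap K (K ⊗[D] A) (aeval (n : K) f)) := hx
    rwa [isIntegral_algebraMap_iff algebraMap_inj] at this
  rw [IsIntegrallyClosed.isIntegral_iff] at h2
  obtain ⟨y, hy⟩ := h2
  exact ⟨y, by rw [hy, aeval_def, eval₂_eq_eval_map]; simp⟩

theorem mem_of_map (g : D[X]) :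
    g.map (algebraMap D K) ∈ IntK D A (integralElements D A) (integralElements D A) := by
  intro b hb
  have hb' : IsIntegral D b := hb
  show IsIntegral D (aeval b (g.map (algebraMap D K)))
  rw [aeval_map_algebraMap]
  exact IsIntegral.of_mem_of_fg _ hb'.fg_adjoin_singleton _ (aeval_mem_adjoin_singleton D b)

theorem imageA_sub : imageA D A ⊆ integralElements D A := by
  rintro _ ⟨a, rfl⟩
  have : IsIntegral D a := Algebra.IsIntegral.isIntegral a
  exact this.map (Algebra.TensorProduct.includeRight : A →ₐ[D] K ⊗[D] A)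

theorem intK_eq : IntK D A (imageA D A) (integralElements D A) =
    IntK D A (integralElements D A) (integralElements D A) := by
  apply Set.Subset.antisymm
  · intro f hf
    obtain ⟨g, rfl⟩ := map_of_mem hf
    exact mem_of_map g
  · intro f hf b hb
    exact hf b (imageA_sub hb)

/-- The element `i = t⁻¹ ⊗ Y`. -/
noncomputable def b : K ⊗[D] A := (algebraMap D K X)⁻¹ ⊗ₜ (⟨0, 1⟩ : A)

theorem t_ne : algebraMap D K X ≠ 0 := by
  rw [Ne, map_eq_zero_iff _ (IsFractionRing.injective D K)]
  exact X_ne_zero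

theorem b_sq : b ^ 2 = -1 := by
  rw [pow_two b]
  unfold b
  rw [Algebra.TensorProduct.tmul_mul_tmul]
  have : (⟨0, 1⟩ : A) * ⟨0, 1⟩ = (-X ^ 2 : D) • (1 : A) := by
    ext1
    · simp only [QuadraticAlgebra.re_mul, QuadraticAlgebra.re_smul]
      have : (1 : A).re = 1 := rfl
      rw [this]
      simp
    · simp only [QuadraticAlgebra.im_mul, QuadraticAlgebra.im_smul]
      have : (1 : A).im = 0 := rfl
      rw [this]
      simp
  rw [this, TensorProduct.tmul_smul, TensorProduct.smul_tmul', Algebra.smul_def, map_neg, map_pow]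
  have h := t_ne
  have : -(algebraMap D K X) ^ 2 * ((algebraMap D K X)⁻¹ * (algebraMap D K X)⁻¹) = -1 := by
    field_simp
  rw [this, TensorProduct.neg_tmul]
  rfl

theorem b_int : b ∈ integralElements D A := by
  refine ⟨X ^ 2 + C 1, monic_X_pow_add_C _ (by norm_num), ?_⟩
  rw [← aeval_def]
  simp [b_sq]

/-- A square root of `-1` in the algebraic closure is not in `Ω_A`. -/
theorem not_mem_Omega (z : AlgebraicClosure K) (hz : z ^ 2 = -1) :
    z ∉ Omega D A (imageA D A) := by
  rintro ⟨_, ⟨a, rfl⟩, hroot⟩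
  set x : D := a.re with hx
  set y : D := a.im with hy
  set P : K[X] := (X - C (algebraMap D K x)) ^ 2 +
    C ((algebraMap D K X) ^ 2 * (algebraMap D K y) ^ 2) with hP
  have hPa : aeval ((1 : K) ⊗ₜ[D] a) P = 0 := by
    have h1 : (1 : K) ⊗ₜ[D] a - algebraMap K (K ⊗[D] A) (algebraMap D K x) =
        (1 : K) ⊗ₜ[D] (⟨0, y⟩ : A) := by
      rw [← IsScalarTower.algebraMap_apply D K (K ⊗[D] A)]
      have : algebraMap D (K ⊗[D] A) x = (1 : K) ⊗ₜ[D] (⟨x, 0⟩ : A) := by
        rw [← (Algebra.TensorProduct.includeRight : A →ₐ[D] K ⊗[D] A).commutes x]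
        rfl
      rw [this, ← TensorProduct.tmul_sub]
      congr 1
      ext1 <;> simp [hx, hy]
    rw [hP]
    simp only [map_add, map_pow, map_sub, aeval_X, aeval_C]
    rw [h1, pow_two ((1 : K) ⊗ₜ[D] (⟨0, y⟩ : A)), Algebra.TensorProduct.tmul_mul_tmul]
    have h2 : (⟨0, y⟩ : A) * ⟨0, y⟩ = algebraMap D A (-(X ^ 2 * y ^ 2)) := by
      ext1
      · simp only [QuadraticAlgebra.re_mul, QuadraticAlgebra.algebraMap_re]
        ring
      · simp only [QuadraticAlgebra.im_mul, QuadraticAlgebra.algebraMap_im]
        ring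
    have h3 : (1 : K) ⊗ₜ[D] (algebraMap D A (-(X ^ 2 * y ^ 2))) =
        algebraMap K (K ⊗[D] A) (algebraMap D K (-(X ^ 2 * y ^ 2))) := by
      rw [← IsScalarTower.algebraMap_apply D K (K ⊗[D] A),
        ← (Algebra.TensorProduct.includeRight : A →ₐ[D] K ⊗[D] A).commutes]
      rfl
    rw [h2, mul_one, h3]
    simp only [map_neg, map_mul, map_pow]
    ring
  have hdvd : minpoly K ((1 : K) ⊗ₜ[D] a) ∣ P := minpoly.dvd K _ hPa
  have hzP : aeval z P = 0 := by
    obtain ⟨Q, hQ⟩ := hdvd
    rw [hQ, map_mul]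
    have : aeval z (minpoly K ((1 : K) ⊗ₜ[D] a)) = 0 := hroot
    rw [this, zero_mul]
  rw [hP] at hzP
  simp only [map_add, map_pow, map_sub, aeval_X, aeval_C, map_mul] at hzP
  rw [← IsScalarTower.algebraMap_apply D K (AlgebraicClosure K),
    ← IsScalarTower.algebraMap_apply D K (AlgebraicClosure K),
    ← IsScalarTower.algebraMap_apply D K (AlgebraicClosure K)] at hzP
  set φ := algebraMap D (AlgebraicClosure K) with hφ
  have hinj : Function.Injective φ := by
    rw [hφ, IsScalarTower.algebraMap_eq D K (AlgebraicClosure K)]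
    exact (algebraMap K (AlgebraicClosure K)).injective.comp (IsFractionRing.injective D K)
  have hlin : 2 * φ x * z = φ (x ^ 2 + X ^ 2 * y ^ 2 - 1) := by
    simp only [map_add, map_sub, map_mul, map_pow, map_one]
    linear_combination hz - hzP
  by_cases hx0 : x = 0
  · rw [hx0] at hlin
    have h4 : φ (X ^ 2 * y ^ 2 - 1) = φ 0 := by
      rw [map_zero]
      simpa using hlin.symm
    have h5 := congrArg (Polynomial.eval 0) (hinj h4)
    simp at h5
  · have h2x : algebraMap D K (2 * x) ≠ 0 := by
      rw [Ne, map_eq_zero_iff _ (IsFractionRing.injective D K)]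
      exact mul_ne_zero two_ne_zero hx0
    set r : K := algebraMap D K (x ^ 2 + X ^ 2 * y ^ 2 - 1) / algebraMap D K (2 * x) with hr
    have hzr : z = algebraMap K (AlgebraicClosure K) r := by
      rw [hr, map_div₀, ← IsScalarTower.algebraMap_apply D K (AlgebraicClosure K),
        ← IsScalarTower.algebraMap_apply D K (AlgebraicClosure K), eq_div_iff]
      · rw [← hφ, ← hlin, map_mul, map_ofNat]
        ring
      · rw [← hφ, Ne, map_eq_zero_iff _ hinj]
        exact mul_ne_zero two_ne_zero hx0
    have hr2 : r ^ 2 = -1 := by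
      apply (algebraMap K (AlgebraicClosure K)).injective
      rw [map_pow, ← hzr, hz, map_neg, map_one]
    have hrint : IsIntegral D r := by
      refine ⟨X ^ 2 + C 1, monic_X_pow_add_C _ (by norm_num), ?_⟩
      rw [← aeval_def]
      simp [hr2]
    rw [IsIntegrallyClosed.isIntegral_iff] at hrint
    obtain ⟨s, hs⟩ := hrint
    have hs2 : s ^ 2 = -1 := by
      apply IsFractionRing.injective D K
      rw [map_pow, hs, hr2, map_neg, map_one]
    have h5 := congrArg (Polynomial.eval 0) hs2
    simp at h5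
    nlinarith [sq_nonneg (Polynomial.eval 0 s)]

theorem exists_mem_Omega : ∃ z : AlgebraicClosure K, z ^ 2 = -1 ∧
    z ∈ Omega D A (integralElements D A) := by
  have hint : IsIntegral K b := by
    refine ⟨X ^ 2 + C 1, monic_X_pow_add_C _ (by norm_num), ?_⟩
    rw [← aeval_def]
    simp [b_sq]
  have : Nontrivial (K ⊗[D] A) := ⟨⟨_, _, fun h => zero_ne_one (algebraMap_inj h)⟩⟩
  have hdeg := minpoly.degree_pos hint
  obtain ⟨z, hz⟩ := IsAlgClosed.exists_aeval_eq_zero (AlgebraicClosure K) (minpoly K b) hdeg.ne'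
  refine ⟨z, ?_, b, b_int, hz⟩
  have hdvd : minpoly K b ∣ (X ^ 2 + 1 : K[X]) := minpoly.dvd K _ (by simp [b_sq])
  obtain ⟨Q, hQ⟩ := hdvd
  have h1 := congrArg (aeval z) hQ
  rw [map_mul, hz, zero_mul] at h1
  simp only [map_add, map_pow, aeval_X, map_one] at h1
  linear_combination h1

/-- There are an integrally closed domain `D` and a torsion-free, module-finite `D`-algebra `A`
containing `D` such that `Int_K(A, A') = Int_K(A')` but some element of `Ω_{A'}` is not in
`Ω_A`. -/
theorem result :
    ∃ (D : Type) (_ : CommRing D) (_ : IsDomain D) (A : Type) (_ : Ring A) (_ : Algebra D A),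
      IsIntegrallyClosed D ∧ Function.Injective (algebraMap D A) ∧
      Module.IsTorsionFree D A ∧ Module.Finite D A ∧
      IntK D A (imageA D A) (integralElements D A) =
        IntK D A (integralElements D A) (integralElements D A) ∧
      ∃ z ∈ Omega D A (integralElements D A), z ∉ Omega D A (imageA D A) := by
  obtain ⟨z, hz, hz'⟩ := exists_mem_Omega
  exact ⟨D, inferInstance, inferInstance, A, inferInstance, inferInstance, inferInstance,
    QuadraticAlgebra.algebraMap_injective, inferInstance, inferInstance, intK_eq,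
    z, hz', not_mem_Omega z hz⟩

end Pool.Agent.Results.MP_efce82_al.DenseNotSameRoots
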